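import Pool.Agent.H8.GG.Basic

set_option autoImplicit false

open Set Filter Topology

namespace Pool.Agent.H8.GG.Perf

open Pool.Agent.H8.GG

/-- codes of nonempty countable sets of reals -/
abbrev J := ℕ → ℝ

open Classical in
/-- the points: `none` is the point at infinity, `some d` the isolated points -/
noncomputable def pt : Option ℝ → (J → Bool)
  | none => fun _ => false
  | some d => fun s => decide (d ∈ range s)

/-- one-point Lindelöfication of the discrete set of reals -/
abbrev L := {h : J → Bool // h ∈ range pt}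

open Classical in
noncomputable def ind (U : Set J) : J → Bool := fun s => decide (s ∈ U)

/-- countably many subsets of `J` separating finite sets -/
def Q : Set (Set J) := (fun F => ⋃₀ F) '' {F : Set (Set J) | F.Finite ∧ F ⊆ TopologicalSpace.countableBasis J}

theorem countable_Q : Q.Countable :=
  (countable_ofPred_finite_subset (TopologicalSpace.countable_countableBasis J)).image _

theorem exists_Q (F G : Set J) (hF : F.Finite) (hG : G.Finite) (hd : Disjoint F G) :
    ∃ U ∈ Q, F ⊆ U ∧ Disjoint U G := by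
  have h1 : ∀ j : F, ∃ V ∈ TopologicalSpace.countableBasis J, j.1 ∈ V ∧ V ⊆ Gᶜ := by
    intro j
    have hj : j.1 ∈ Gᶜ := fun h => disjoint_left.1 hd j.2 h
    exact (TopologicalSpace.isBasis_countableBasis J).exists_subset_of_mem_open hj
      hG.isClosed.isOpen_compl
  choose V hV1 hV2 hV3 using h1
  have := hF.to_subtype
  refine ⟨⋃₀ range V, ⟨range V, ⟨finite_range V, ?_⟩, rfl⟩, ?_, ?_⟩
  · rintro _ ⟨j, rfl⟩
    exact hV1 j
  · intro j hj
    exact ⟨V ⟨j, hj⟩, ⟨⟨j, hj⟩, rfl⟩, hV2 ⟨j, hj⟩⟩
  · rw [disjoint_left]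
    rintro x ⟨_, ⟨j, rfl⟩, hx⟩
    exact hV3 j hx

/-- a separable space containing `L` as a closed subspace -/
abbrev Y := {p : (J → Bool) × ℝ // (p.1 ∈ range pt ∧ p.2 = 0) ∨
  (∃ U ∈ Q, ∃ n : ℕ, p = (ind U, 1 / ((n : ℝ) + 1)))}

noncomputable def inc (x : L) : Y := ⟨(x.1, 0), Or.inl ⟨x.2, rfl⟩⟩

theorem inc_embedding : IsClosedEmbedding inc := by
  refine ⟨⟨?_, ?_⟩, ?_⟩
  · have h1 : IsInducing (fun x : L => ((x.1, 0) : (J → Bool) × ℝ)) := by
      have h2 : IsInducing (fun h : J → Bool => ((h, 0) : (J → Bool) × ℝ)) :=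
        (isEmbedding_prodMkLeft (0 : ℝ)).isInducing
      exact h2.comp IsInducing.subtypeVal
    exact IsInducing.of_comp
      (continuous_subtype_val.prodMk continuous_const |>.subtype_mk _) continuous_subtype_val h1
  · intro x y h
    have := congrArg (fun z : Y => z.1.1) h
    exact Subtype.ext this
  · have : range inc = {y : Y | y.1.2 = 0} := by
      ext y
      constructor
      · rintro ⟨x, rfl⟩
        rfl
      · intro hy
        rcases y.2 with h | ⟨U, hU, n, h⟩
        · refine ⟨⟨y.1.1, h.1⟩, ?_⟩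
          apply Subtype.ext
          exact Prod.ext rfl h.2.symm
        · exfalso
          have h2 : y.1.2 = 1 / ((n : ℝ) + 1) := by rw [h]
          have h3 : (0 : ℝ) < 1 / ((n : ℝ) + 1) := by positivity
          have h4 : y.1.2 = 0 := hy
          linarith
    rw [this]
    exact isClosed_eq (continuous_snd.comp continuous_subtype_val) continuous_const

instance : TopologicalSpace.SeparableSpace Y := by
  have hc : (range fun p : Q × ℕ => (⟨(ind p.1.1, 1 / ((p.2 : ℝ) + 1)),
      Or.inr ⟨p.1.1, p.1.2, p.2, rfl⟩⟩ : Y)).Countable := by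
    have := countable_Q.to_subtype
    exact countable_range _
  refine ⟨_, hc, ?_⟩
  intro y
  rcases y with ⟨p, hp⟩
  rcases id hp with ⟨h1, h2⟩ | ⟨U, hU, n, rfl⟩
  · rw [closure_subtype, mem_closure_iff]
    intro O hO hmem
    obtain ⟨O1, O2, hO1, hO2, hp1, hp2, hsub⟩ := isOpen_prod_iff.1 hO p.1 p.2 hmem
    obtain ⟨I, u, hu, hIu⟩ := isOpen_pi_iff.1 hO1 p.1 hp1
    obtain ⟨U, hU, hU1, hU2⟩ := exists_Q {j | j ∈ I ∧ p.1 j = true} {j | j ∈ I ∧ p.1 j = false}
      (I.finite_toSet.subset fun j hj => hj.1) (I.finite_toSet.subset fun j hj => hj.1) (by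
        rw [disjoint_left]
        rintro j ⟨_, h⟩ ⟨_, h'⟩
        rw [h] at h'
        cases h')
    rw [h2] at hp2
    obtain ⟨ε, hε, hball⟩ := Metric.isOpen_iff.1 hO2 0 hp2
    obtain ⟨n, hn⟩ := exists_nat_one_div_lt hε
    refine ⟨(ind U, 1 / ((n : ℝ) + 1)), hsub ⟨?_, ?_⟩, ⟨_, ⟨(⟨U, hU⟩, n), rfl⟩, rfl⟩⟩
    · apply hIu
      intro j hj
      have : ind U j = p.1 j := by
        cases hpj : p.1 j
        · have : j ∉ U := fun h => disjoint_left.1 hU2 h ⟨hj, hpj⟩
          simp [ind, this]
        · have : j ∈ U := hU1 ⟨hj, hpj⟩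
          simp [ind, this]
      change ind U j ∈ u j
      rw [this]
      exact (hu j hj).2
    · apply hball
      rw [Metric.mem_ball, Real.dist_eq, sub_zero, abs_of_pos (by positivity)]
      exact hn
  · exact subset_closure ⟨(⟨U, hU⟩, n), rfl⟩

/-- the perfect preimage -/
abbrev X := L ⊕ Y

noncomputable def f : X → Y := Sum.elim inc id

theorem f_cont : Continuous f := inc_embedding.continuous.sumElim continuous_id

theorem f_closed : IsClosedMap f := by
  intro C hC
  have h1 : f '' C = inc '' (Sum.inl ⁻¹' C) ∪ Sum.inr ⁻¹' C := by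
    ext y
    constructor
    · rintro ⟨x, hx, rfl⟩
      rcases x with x | x
      · left
        exact ⟨x, hx, rfl⟩
      · right
        exact hx
    · rintro (⟨x, hx, rfl⟩ | h)
      · exact ⟨Sum.inl x, hx, rfl⟩
      · exact ⟨Sum.inr y, h, rfl⟩
  rw [h1]
  exact (inc_embedding.isClosedMap _ (hC.preimage continuous_inl)).union
    (hC.preimage continuous_inr)

theorem f_surj : Function.Surjective f := fun y => ⟨Sum.inr y, rfl⟩

theorem f_fiber (y : Y) : IsCompact (f ⁻¹' {y}) := by
  apply Set.Finite.isCompact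
  have : f ⁻¹' {y} ⊆ (Sum.inl '' (inc ⁻¹' {y})) ∪ {Sum.inr y} := by
    rintro (x | x) hx
    · left
      exact ⟨x, hx, rfl⟩
    · right
      have : x = y := hx
      rw [this]
      rfl
  refine Set.Finite.subset ?_ this
  refine Set.Finite.union (Set.Finite.image _ ?_) (finite_singleton _)
  exact (finite_singleton y).preimage inc_embedding.injective.injOn

theorem pt_inj {d d' : ℝ} (h : pt (some d) = pt (some d')) : d = d' := by
  have := congrFun h (fun _ => d')
  simp [pt] at this
  exact this

theorem pt_none_ne {d : ℝ} : pt none ≠ pt (some d) := by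
  intro h
  have := congrFun h (fun _ => d)
  simp [pt] at this

open Classical in
/-- indicator of a set of isolated points of `L` -/
noncomputable def chi (S : Set ℝ) : X → ℝ
  | Sum.inl x => if ∃ d ∈ S, x.1 = pt (some d) then 1 else 0
  | Sum.inr _ => 0

theorem chi_none (S : Set ℝ) (h : pt none ∈ range pt) : chi S (Sum.inl ⟨pt none, h⟩) = 0 := by
  have h2 : ¬ ∃ d ∈ S, pt none = pt (some d) := by
    rintro ⟨d, hd, h⟩
    exact pt_none_ne h
  simp only [chi, h2, if_false]

theorem chi_mem' {S : Set ℝ} {d : ℝ} (hd : d ∈ S) (h : pt (some d) ∈ range pt) :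
    chi S (Sum.inl ⟨pt (some d), h⟩) = 1 := by
  have h2 : ∃ d' ∈ S, pt (some d) = pt (some d') := ⟨d, hd, rfl⟩
  simp only [chi, h2, if_true]

theorem chi_not {S : Set ℝ} {d : ℝ} (hd : d ∉ S) (h : pt (some d) ∈ range pt) :
    chi S (Sum.inl ⟨pt (some d), h⟩) = 0 := by
  have h2 : ¬ ∃ d' ∈ S, pt (some d) = pt (some d') := by
    rintro ⟨d', hd', h⟩
    rw [pt_inj h] at hd
    exact hd hd'
  simp only [chi, h2, if_false]

theorem chi_inr (S : Set ℝ) (y : Y) : chi S (Sum.inr y) = 0 := rfl

def bf (b : Bool) : ℝ := cond b 1 0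

theorem chi_cont {S : Set ℝ} (hS : S.Countable) : Continuous (chi S) := by
  classical
  have key : Continuous (fun x : L => chi S (Sum.inl x)) := by
    rcases S.eq_empty_or_nonempty with rfl | hne
    · have : (fun x : L => chi ∅ (Sum.inl x)) = fun _ => 0 := by
        funext x
        obtain ⟨x, o, rfl⟩ := x
        rcases o with _ | d
        · exact chi_none _ _
        · exact chi_not (Set.notMem_empty d) _
      rw [this]
      exact continuous_const
    · obtain ⟨s, rfl⟩ := hS.exists_eq_range hne
      have h1 : (fun x : L => chi (range s) (Sum.inl x)) = bf ∘ fun x : L => x.1 s := by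
        funext x
        obtain ⟨x, o, rfl⟩ := x
        rcases o with _ | d
        · rw [chi_none]
          simp [pt, bf]
        · by_cases hd : d ∈ range s
          · rw [chi_mem' hd]
            have : pt (some d) s = true := by simpa [pt] using hd
            simp [bf, this]
          · rw [chi_not hd]
            have : pt (some d) s = false := by simpa [pt] using hd
            simp [bf, this]
      rw [h1]
      exact continuous_of_discreteTopology.comp
        ((continuous_apply s).comp continuous_subtype_val)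
  have : chi S = Sum.elim (fun x : L => chi S (Sum.inl x)) (fun _ => 0) := by
    funext x
    rcases x with x | y <;> rfl
  rw [this]
  exact key.sumElim continuous_const

theorem not_cont_chi : ¬ Continuous (chi univ) := by
  classical
  intro hc
  let x0 : L := ⟨pt none, mem_range_self _⟩
  have hL : Continuous (fun x : L => chi univ (Sum.inl x)) := hc.comp continuous_inl
  have hopen : IsOpen {x : L | chi univ (Sum.inl x) < 1} := isOpen_lt hL continuous_const
  obtain ⟨W, hW, hWe⟩ := isOpen_induced_iff.1 hopen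
  have hx0 : x0.1 ∈ W := by
    have : x0 ∈ {x : L | chi univ (Sum.inl x) < 1} := by
      change chi univ (Sum.inl (⟨pt none, mem_range_self _⟩ : L)) < 1
      rw [chi_none]
      exact one_pos
    rw [← hWe] at this
    exact this
  obtain ⟨I, u, hu, hIu⟩ := isOpen_pi_iff.1 hW _ hx0
  have hcount : (⋃ s ∈ I, range s : Set ℝ).Countable :=
    I.finite_toSet.countable.biUnion fun s _ => countable_range s
  obtain ⟨d, hd⟩ : ∃ d, d ∉ (⋃ s ∈ I, range s : Set ℝ) := by
    by_contra h
    push Not at h
    have : (⋃ s ∈ I, range s : Set ℝ) = univ := eq_univ_of_forall h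
    rw [this] at hcount
    exact Set.not_countable_univ hcount
  have h1 : pt (some d) ∈ W := by
    apply hIu
    intro s hs
    have h2 : pt (some d) s = x0.1 s := by
      have : d ∉ range s := fun h => hd (mem_iUnion₂.2 ⟨s, hs, h⟩)
      change decide (d ∈ range s) = false
      simpa using this
    rw [h2]
    exact (hu s hs).2
  have h3 : (⟨pt (some d), mem_range_self _⟩ : L) ∈ {x : L | chi univ (Sum.inl x) < 1} := by
    rw [← hWe]
    exact h1
  rw [Set.mem_ofPred_eq, chi_mem' (mem_univ _)] at h3
  exact lt_irrefl _ h3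

def A : Set (Cp X) := {g | ∃ s : Finset ℝ, g.1 = chi (s : Set ℝ)}

theorem A_cc : SeqCC A := by
  classical
  intro a ha
  choose s hs using ha
  have hS : (⋃ k, (s k : Set ℝ)).Countable := countable_iUnion fun k => (s k).finite_toSet.countable
  -- limits along an ultrafilter
  let p : Ultrafilter ℕ := Ultrafilter.of atTop
  let T : Set ℝ := {d | {k | d ∈ (s k : Set ℝ)} ∈ p}
  have hT : T ⊆ ⋃ k, (s k : Set ℝ) := by
    intro d hd
    obtain ⟨k, hk⟩ := p.nonempty_of_mem hd
    exact mem_iUnion.2 ⟨k, hk⟩
  refine ⟨⟨chi T, chi_cont (hS.mono hT)⟩, ?_⟩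
  have htend : Tendsto (fun k => (a k).1) (p : Filter ℕ) (𝓝 (chi T)) := by
    rw [tendsto_pi_nhds]
    intro x
    apply tendsto_nhds_of_eventually_eq
    have hcongr : ∀ k, (a k).1 x = chi (s k : Set ℝ) x := fun k => by rw [hs k]
    simp only [hcongr]
    rcases x with x | y
    · obtain ⟨x, o, rfl⟩ := x
      rcases o with _ | d
      · refine Eventually.of_forall fun k => ?_
        rw [chi_none, chi_none]
      · by_cases hd : d ∈ T
        · have hd' : {k | d ∈ (s k : Set ℝ)} ∈ (p : Filter ℕ) := hd
          filter_upwards [hd'] with k hk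
          rw [chi_mem' hk, chi_mem' hd]
        · have hd' : {k | d ∈ (s k : Set ℝ)}ᶜ ∈ (p : Filter ℕ) := Ultrafilter.compl_mem_iff_notMem.2 hd
          filter_upwards [hd'] with k hk
          have hk' : d ∉ (s k : Set ℝ) := hk
          rw [chi_not hk', chi_not hd]
    · exact Eventually.of_forall fun k => rfl
  have htend' : Tendsto a (p : Filter ℕ) (𝓝 ⟨chi T, chi_cont (hS.mono hT)⟩) := by
    rw [nhds_subtype_eq_comap, tendsto_comap_iff]
    exact htend
  have hmc : MapClusterPt (⟨chi T, chi_cont (hS.mono hT)⟩ : Cp X) (p : Filter ℕ) a :=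
    htend'.mapClusterPt
  exact hmc.mono (Ultrafilter.of_le atTop)

theorem chi_mem : chi univ ∈ closure (Subtype.val '' A : Set (X → ℝ)) := by
  classical
  rw [mem_closure_iff]
  intro O hO hmem
  obtain ⟨I, u, hu, hIu⟩ := isOpen_pi_iff.1 hO _ hmem
  -- the finitely many relevant reals
  have hfin : {d : ℝ | ∃ x ∈ I, ∃ l : L, x = Sum.inl l ∧ l.1 = pt (some d)}.Finite := by
    have hinj : Function.Injective (fun d : ℝ => (Sum.inl (⟨pt (some d), mem_range_self _⟩ : L) : X)) := by
      intro d d' h
      have h1 := Sum.inl_injective h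
      have h2 := congrArg Subtype.val h1
      exact pt_inj h2
    refine (I.finite_toSet.preimage (hinj.injOn)).subset ?_
    rintro d ⟨x, hx, l, rfl, hl⟩
    change (Sum.inl (⟨pt (some d), mem_range_self _⟩ : L) : X) ∈ (I : Set X)
    have : l = ⟨pt (some d), mem_range_self _⟩ := Subtype.ext hl
    rw [← this]
    exact hx
  refine ⟨chi (hfin.toFinset : Set ℝ), hIu ?_, ⟨⟨_, chi_cont (Finset.countable_toSet _)⟩,
    ⟨hfin.toFinset, rfl⟩, rfl⟩⟩
  intro x hx
  have : chi (hfin.toFinset : Set ℝ) x = chi univ x := by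
    rcases x with l | y
    · obtain ⟨l, o, rfl⟩ := l
      rcases o with _ | d
      · rw [chi_none, chi_none]
      · rw [chi_mem' (mem_univ d), chi_mem']
        simp only [Set.Finite.coe_toFinset]
        exact ⟨_, hx, _, rfl, rfl⟩
    · rfl
  rw [this]
  exact (hu x hx).2

theorem not_weakly : ¬ WeaklyGrothendieck X := fun h => not_cont_chi (cont_of_gspace h A_cc chi_mem)

end Pool.Agent.H8.GG.Perf
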