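import Pool.Agent.H8.GG.Perf

set_option autoImplicit false

namespace Pool.Agent.H8.GG

open Set in
instance sum_t35 {X Y : Type} [TopologicalSpace X] [TopologicalSpace Y] [T35Space X]
    [T35Space Y] : T35Space (X ⊕ Y) where
  toCompletelyRegularSpace := by
    refine ⟨?_⟩
    rintro (x | y) K hK hx
    · obtain ⟨f, hf, hfx, hfK⟩ := CompletelyRegularSpace.completely_regular x (Sum.inl ⁻¹' K)
        (hK.preimage continuous_inl) hx
      refine ⟨Sum.elim f (fun _ => 1), hf.sumElim continuous_const, hfx, ?_⟩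
      rintro (z | z) hz
      · exact hfK hz
      · rfl
    · obtain ⟨f, hf, hfx, hfK⟩ := CompletelyRegularSpace.completely_regular y (Sum.inr ⁻¹' K)
        (hK.preimage continuous_inr) hx
      refine ⟨Sum.elim (fun _ => 1) f, continuous_const.sumElim hf, hfx, ?_⟩
      rintro (z | z) hz
      · rfl
      · exact hfK hz

theorem perf_thm : ∃ (X Y : Type) (_ : TopologicalSpace X) (_ : TopologicalSpace Y) (f : X → Y),
    T35Space X ∧ T35Space Y ∧ Continuous f ∧ IsClosedMap f ∧ Function.Surjective f ∧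
    (∀ y, IsCompact (f ⁻¹' {y})) ∧ Grothendieck Y ∧ WeaklyGrothendieck Y ∧
    ¬ Grothendieck X ∧ ¬ WeaklyGrothendieck X := by
  have hY : Grothendieck Perf.Y := grothendieck_of_separable _
  have hgw : ∀ (Z : Type) [TopologicalSpace Z], Grothendieck Z → WeaklyGrothendieck Z := by
    intro Z _ h
    apply gspace_of_cont
    intro A hA g hg
    have h1 := h Set.univ
    -- transport along the homeomorphism with the full subspace
    have h2 : SeqCC ((fun z : (Set.univ : Set (Cp Z)) => z.1) ⁻¹' A) := by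
      intro a ha
      obtain ⟨z, hz⟩ := hA (fun n => (a n).1) ha
      refine ⟨⟨z, Set.mem_univ _⟩, ?_⟩
      rw [mapClusterPt_iff_frequently] at hz ⊢
      intro s hs
      rw [nhds_subtype_eq_comap, Filter.mem_comap] at hs
      obtain ⟨t, ht, hts⟩ := hs
      exact (hz t ht).mono fun n hn => hts hn
    have h3 := h1 _ (of_seqCC h2)
    have h4 : IsCompact ((fun z : (Set.univ : Set (Cp Z)) => z.1.1) '' closure
        ((fun z : (Set.univ : Set (Cp Z)) => z.1) ⁻¹' A)) :=
      h3.image (continuous_subtype_val.comp continuous_subtype_val)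
    have h5 : closure (Subtype.val '' A : Set (Z → ℝ)) ⊆
        (fun z : (Set.univ : Set (Cp Z)) => z.1.1) '' closure
        ((fun z : (Set.univ : Set (Cp Z)) => z.1) ⁻¹' A) := by
      apply closure_minimal _ h4.isClosed
      rintro _ ⟨f, hf, rfl⟩
      exact ⟨⟨f, Set.mem_univ _⟩, subset_closure hf, rfl⟩
    obtain ⟨f, _, rfl⟩ := h5 hg
    exact f.1.2
  exact ⟨Perf.X, Perf.Y, inferInstance, inferInstance, Perf.f,
    inferInstance, inferInstance, Perf.f_cont, Perf.f_closed, Perf.f_surj, Perf.f_fiber, hY,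
    hgw _ hY, fun h => Perf.not_weakly (hgw _ h), Perf.not_weakly⟩

end Pool.Agent.H8.GG
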