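import Pool.Agent.H8.GG.Prod

set_option autoImplicit false

open Set Filter Topology

namespace Pool.Agent.H8.GG

universe u v

variable {X : Type u} {K : Type v} [TopologicalSpace X] [TopologicalSpace K] [CompactSpace K]

theorem unif_cont {f : X × K → ℝ} (hf : Continuous f) (x0 : X) {η : ℝ} (hη : 0 < η) :
    ∀ᶠ x in 𝓝 x0, ∀ k, |f (x, k) - f (x0, k)| < η := by
  have hev : ∀ᶠ x in 𝓝 x0, ∀ k ∈ (univ : Set K), |f (x, k) - f (x0, k)| < η := by
    apply isCompact_univ.eventually_forall_of_forall_eventually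
    intro k _
    have hc : ContinuousAt (fun z : X × K => |f (z.1, z.2) - f (x0, z.2)|) (x0, k) := by
      apply Continuous.continuousAt
      have h1 : Continuous fun z : X × K => (x0, z.2) := by fun_prop
      exact continuous_abs.comp (hf.sub (hf.comp h1))
    refine hc.eventually_lt_const ?_
    simp only [sub_self, abs_zero]
    exact hη
  filter_upwards [hev] with x hx k
  exact hx k (mem_univ k)

omit [CompactSpace K] in
theorem sec_cont (hX : GSpace (Cp X)) {A : Set (Cp (X × K))} (hA : SeqCC A) {g : X × K → ℝ}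
    (hg : g ∈ closure (Subtype.val '' A : Set (X × K → ℝ))) (k : K) :
    Continuous fun x => g (x, k) := by
  refine push hX (fun f x => f (x, k)) ?_ ?_ hA hg
  · exact continuous_pi fun x => continuous_apply _
  · intro f hf
    exact hf.comp (by fun_prop)

theorem sec_cont' {A : Set (Cp (X × K))} (hA : SeqCC A) {g : X × K → ℝ}
    (hg : g ∈ closure (Subtype.val '' A : Set (X × K → ℝ))) (x : X) :
    Continuous fun k => g (x, k) := by
  refine push (gspace_of_compact K) (fun f k => f (x, k)) ?_ ?_ hA hg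
  · exact continuous_pi fun k => continuous_apply _
  · intro f hf
    exact hf.comp (by fun_prop)

/-- uniform continuity along countable subsets of `K` -/
theorem star (hX : GSpace (Cp X)) {A : Set (Cp (X × K))} (hA : SeqCC A) {g : X × K → ℝ}
    (hg : g ∈ closure (Subtype.val '' A : Set (X × K → ℝ))) (q : ℕ → K) (x0 : X) {η : ℝ}
    (hη : 0 < η) : ∀ᶠ x in 𝓝 x0, ∀ i, |g (x, q i) - g (x0, q i)| < η := by
  obtain ⟨f0, hf0⟩ := exists_eq_on_seq (e := (Subtype.val : Cp (X × K) → (X × K → ℝ)))
    continuous_subtype_val hA hg (fun i => (x0, q i))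
  have hsec := sec_cont hX hA hg
  -- the functional is only applied to continuous functions
  have hPhi : Continuous (Phi q f0.1 g g) := by
    have hcl : Phi q f0.1 g g ∈ closure (Subtype.val ''
        ((fun f : Cp (X × K) => (⟨Phi q f0.1 g f.1, cont_Phi_apply q f0.2 hsec f.2⟩ : Cp X)) '' A) :
        Set (X → ℝ)) := by
      refine map_mem_closure (cont_Phi q f0.1 g) hg ?_
      rintro _ ⟨f, hf, rfl⟩
      exact ⟨_, ⟨f, hf, rfl⟩, rfl⟩
    refine cont_of_gspace hX ?_ hcl
    intro b hb
    choose a ha1 ha2 using hb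
    obtain ⟨z, hz⟩ := hA a ha1
    refine ⟨⟨Phi q f0.1 g z.1, cont_Phi_apply q f0.2 hsec z.2⟩, ?_⟩
    have hT : Continuous (fun f : Cp (X × K) =>
        (⟨Phi q f0.1 g f.1, cont_Phi_apply q f0.2 hsec f.2⟩ : Cp X)) :=
      ((cont_Phi q f0.1 g).comp continuous_subtype_val).subtype_mk _
    have : b = (fun f : Cp (X × K) =>
        (⟨Phi q f0.1 g f.1, cont_Phi_apply q f0.2 hsec f.2⟩ : Cp X)) ∘ a :=
      funext fun n => (ha2 n).symm
    rw [this]
    exact hz.continuousAt_comp hT.continuousAt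
  have hDg : ∀ x, DD q g g x = 0 := by
    intro x
    unfold DD aa
    simp
  have hval : ∀ x i, aa q f0.1 i g x ≤ Phi q f0.1 g g x := by
    intro x i
    have h1 : max 0 (aa q f0.1 i g x - 2 ^ i * DD q g g x) ≤ Phi q f0.1 g g x :=
      le_ciSup (bddAbove_term (fun i => aa_le_one q f0.1 i g x) (DD_nonneg q g g x)) i
    rw [hDg, mul_zero, sub_zero] at h1
    exact (le_max_right _ _).trans h1
  have h0 : Phi q f0.1 g g x0 = 0 := by
    unfold Phi
    have : ∀ i, max 0 (aa q f0.1 i g x0 - 2 ^ i * DD q g g x0) = 0 := by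
      intro i
      rw [hDg, mul_zero, sub_zero]
      unfold aa
      rw [show f0.1 (x0, q i) = g (x0, q i) from hf0 i]
      simp
    simp only [this]
    exact ciSup_const
  have hev1 : ∀ᶠ x in 𝓝 x0, Phi q f0.1 g g x < min 1 (η / 2) := by
    apply hPhi.continuousAt.eventually_lt_const
    rw [h0]
    exact lt_min one_pos (half_pos hη)
  filter_upwards [hev1, unif_cont f0.2 x0 (half_pos hη)] with x h1 h2 i
  have h3 : min 1 |g (x, q i) - f0.1 (x, q i)| < min 1 (η / 2) := (hval x i).trans_lt h1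
  have h4 : |g (x, q i) - f0.1 (x, q i)| < η / 2 := by
    by_contra hc
    rw [not_lt] at hc
    exact absurd h3 (not_lt.2 (min_le_min_left 1 hc))
  have h5 := h2 (q i)
  have h6 : f0.1 (x0, q i) = g (x0, q i) := hf0 i
  rw [h6] at h5
  have h7 := abs_sub_le (g (x, q i)) (f0.1 (x, q i)) (g (x0, q i))
  linarith

/-- sup of truncated oscillations along a sequence of points -/
noncomputable def Nq (g : X × K → ℝ) (x0 : X) (q : ℕ → K) (x : X) : ℝ :=
  ⨆ i, min 1 |g (x, q i) - g (x0, q i)|

omit [TopologicalSpace X] [TopologicalSpace K] [CompactSpace K] in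
theorem bdd_Nq (g : X × K → ℝ) (x0 : X) (q : ℕ → K) (x : X) :
    BddAbove (range fun i => min 1 |g (x, q i) - g (x0, q i)|) := ⟨1, by
  rintro _ ⟨i, rfl⟩
  exact min_le_left _ _⟩

omit [TopologicalSpace X] [TopologicalSpace K] [CompactSpace K] in
theorem Nq_mem (g : X × K → ℝ) (x0 : X) (q : ℕ → K) (x : X) : Nq g x0 q x ∈ Icc (0 : ℝ) 1 := by
  constructor
  · exact (le_min zero_le_one (abs_nonneg _)).trans (le_ciSup (bdd_Nq g x0 q x) 0)
  · exact ciSup_le fun i => min_le_left _ _

omit [TopologicalSpace X] [TopologicalSpace K] [CompactSpace K] in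
theorem Nq_sub (g : X × K → ℝ) (x0 : X) (q : ℕ → K) {x y : X} {η : ℝ}
    (h : ∀ i, |g (x, q i) - g (y, q i)| ≤ η) : Nq g x0 q x ≤ Nq g x0 q y + η := by
  apply ciSup_le
  intro i
  have h1 : min 1 |g (y, q i) - g (x0, q i)| ≤ Nq g x0 q y := le_ciSup (bdd_Nq g x0 q y) i
  have h2 := abs_sub_le (g (x, q i)) (g (y, q i)) (g (x0, q i))
  have h3 := h i
  have h4 : 0 ≤ η := (abs_nonneg _).trans h3
  rcases le_total 1 |g (y, q i) - g (x0, q i)| with h5 | h5
  · rw [min_eq_left h5] at h1
    have : min 1 |g (x, q i) - g (x0, q i)| ≤ 1 := min_le_left _ _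
    linarith
  · rw [min_eq_right h5] at h1
    have : min 1 |g (x, q i) - g (x0, q i)| ≤ |g (x, q i) - g (x0, q i)| := min_le_right _ _
    linarith

theorem cont_Nq (hX : GSpace (Cp X)) {A : Set (Cp (X × K))} (hA : SeqCC A) {g : X × K → ℝ}
    (hg : g ∈ closure (Subtype.val '' A : Set (X × K → ℝ))) (x0 : X) (q : ℕ → K) :
    Continuous (Nq g x0 q) := by
  rw [continuous_iff_continuousAt]
  intro x1
  unfold ContinuousAt
  rw [Metric.tendsto_nhds]
  intro η hη
  filter_upwards [star hX hA hg q x1 (half_pos hη)] with x hx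
  have h1 := Nq_sub g x0 q (x := x) (y := x1) (fun i => (hx i).le)
  have h2 := Nq_sub g x0 q (x := x1) (y := x) (η := η / 2) (fun i => by
    rw [abs_sub_comm]
    exact (hx i).le)
  rw [Real.dist_eq, abs_lt]
  constructor <;> linarith

/-- the family of all `Nq` is countably compact in `C_p(X)` -/
theorem seqCC_Nq (hX : GSpace (Cp X)) {A : Set (Cp (X × K))} (hA : SeqCC A) {g : X × K → ℝ}
    (hg : g ∈ closure (Subtype.val '' A : Set (X × K → ℝ))) (x0 : X) :
    SeqCC (range fun q : ℕ → K => (⟨Nq g x0 q, cont_Nq hX hA hg x0 q⟩ : Cp X)) := by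
  intro b hb
  choose q hq using hb
  -- one sequence enumerating all of them
  let Q : ℕ → K := fun n => q n.unpair.1 n.unpair.2
  let p : Ultrafilter ℕ := Ultrafilter.of atTop
  have hK : IsCompact (Set.pi univ fun _ : X => Icc (0 : ℝ) 1) :=
    isCompact_univ_pi fun x => isCompact_Icc
  obtain ⟨h, _, hh⟩ := hK.ultrafilter_le_nhds (p.map fun n => Nq g x0 (q n)) (by
    rw [le_principal_iff]
    exact Filter.mem_map.2 (Filter.mem_of_superset Filter.univ_mem
      (fun n _ x _ => Nq_mem g x0 (q n) x)))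
  have htend : Tendsto (fun n => Nq g x0 (q n)) (p : Filter ℕ) (𝓝 h) := hh
  have hlim : ∀ x, Tendsto (fun n => Nq g x0 (q n) x) (p : Filter ℕ) (𝓝 (h x)) := fun x =>
    (continuous_apply x).continuousAt.tendsto.comp htend
  have hcont : Continuous h := by
    rw [continuous_iff_continuousAt]
    intro x1
    unfold ContinuousAt
    rw [Metric.tendsto_nhds]
    intro η hη
    filter_upwards [star hX hA hg Q x1 (half_pos hη)] with x hx
    have hx' : ∀ n i, |g (x, q n i) - g (x1, q n i)| < η / 2 := by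
      intro n i
      have := hx (Nat.pair n i)
      simpa [Q] using this
    have h1 : h x ≤ h x1 + η / 2 :=
      le_of_tendsto_of_tendsto (hlim x) ((hlim x1).add_const (η / 2))
        (Eventually.of_forall fun n => Nq_sub g x0 (q n) (fun i => (hx' n i).le))
    have h2 : h x1 ≤ h x + η / 2 :=
      le_of_tendsto_of_tendsto (hlim x1) ((hlim x).add_const (η / 2))
        (Eventually.of_forall fun n => Nq_sub g x0 (q n) (fun i => by
          rw [abs_sub_comm]
          exact (hx' n i).le))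
    rw [Real.dist_eq, abs_lt]
    constructor <;> linarith
  refine ⟨⟨h, hcont⟩, ?_⟩
  have htend' : Tendsto b (p : Filter ℕ) (𝓝 (⟨h, hcont⟩ : Cp X)) := by
    rw [nhds_subtype_eq_comap, tendsto_comap_iff]
    have : (Subtype.val ∘ b) = fun n => Nq g x0 (q n) := by
      funext n
      rw [Function.comp, ← hq n]
    rw [this]
    exact htend
  exact htend'.mapClusterPt.mono (Ultrafilter.of_le atTop)

theorem main_cont (hX : GSpace (Cp X)) {A : Set (Cp (X × K))} (hA : SeqCC A) {g : X × K → ℝ}
    (hg : g ∈ closure (Subtype.val '' A : Set (X × K → ℝ))) : Continuous g := by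
  classical
  rw [continuous_iff_continuousAt]
  rintro ⟨x0, k0⟩
  -- the full oscillation function
  let N : X → ℝ := fun x => ⨆ k, min 1 |g (x, k) - g (x0, k)|
  have hbdd : ∀ x, BddAbove (range fun k => min 1 |g (x, k) - g (x0, k)|) := fun x => ⟨1, by
    rintro _ ⟨k, rfl⟩
    exact min_le_left _ _⟩
  have hNe : Nonempty K := ⟨k0⟩
  have hcl : N ∈ closure (Subtype.val '' (range fun q : ℕ → K =>
      (⟨Nq g x0 q, cont_Nq hX hA hg x0 q⟩ : Cp X)) : Set (X → ℝ)) := by
    rw [mem_closure_iff]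
    intro O hO hmem
    obtain ⟨I, u, hu, hIu⟩ := isOpen_pi_iff.1 hO _ hmem
    -- a common radius
    have hδ : ∀ x ∈ I, ∃ δ > 0, Metric.ball (N x) δ ⊆ u x := fun x hx =>
      Metric.isOpen_iff.1 (hu x hx).1 _ (hu x hx).2
    have hk : ∀ x : X, ∃ k : K, x ∈ I → min 1 |g (x, k) - g (x0, k)| ∈ u x ∧ ∀ t,
        min 1 |g (x, k) - g (x0, k)| ≤ t → t ≤ N x → t ∈ u x := by
      intro x
      by_cases hx : x ∈ I
      · obtain ⟨δ, hδ, hball⟩ := hδ x hx
        obtain ⟨k, hk⟩ := exists_lt_of_lt_ciSup (show N x - δ < ⨆ k, min 1 |g (x, k) - g (x0, k)| by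
          change N x - δ < N x
          linarith)
        have hkN : min 1 |g (x, k) - g (x0, k)| ≤ N x := le_ciSup (hbdd x) k
        have hall : ∀ t, min 1 |g (x, k) - g (x0, k)| ≤ t → t ≤ N x → t ∈ u x := by
          intro t h1 h2
          apply hball
          rw [Metric.mem_ball, Real.dist_eq, abs_lt]
          constructor <;> linarith
        exact ⟨k, fun _ => ⟨hall _ le_rfl hkN, hall⟩⟩
      · exact ⟨k0, fun h => absurd h hx⟩
    choose kx hkx using hk
    obtain ⟨q, hq⟩ := ((I.finite_toSet.image kx).countable.insert k0).exists_eq_range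
      (insert_nonempty _ _)
    refine ⟨Nq g x0 q, hIu ?_, ⟨_, ⟨q, rfl⟩, rfl⟩⟩
    intro x hx
    obtain ⟨_, hall⟩ := hkx x hx
    apply hall
    · have : kx x ∈ range q := hq ▸ mem_insert_of_mem _ ⟨x, hx, rfl⟩
      obtain ⟨i, hi⟩ := this
      rw [← hi]
      exact le_ciSup (bdd_Nq g x0 q x) i
    · exact ciSup_le fun i => le_ciSup (hbdd x) (q i)
  have hNc : Continuous N := cont_of_gspace hX (seqCC_Nq hX hA hg x0) hcl
  have hN0 : N x0 = 0 := by
    change (⨆ k, min 1 |g (x0, k) - g (x0, k)|) = 0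
    simp
  unfold ContinuousAt
  rw [Metric.tendsto_nhds]
  intro η hη
  have hev1 : ∀ᶠ x in 𝓝 x0, N x < min 1 (η / 2) := by
    apply hNc.continuousAt.eventually_lt_const
    rw [hN0]
    exact lt_min one_pos (half_pos hη)
  have hev2 : ∀ᶠ k in 𝓝 k0, |g (x0, k) - g (x0, k0)| < η / 2 := by
    have hc : ContinuousAt (fun k => |g (x0, k) - g (x0, k0)|) k0 :=
      (continuous_abs.comp ((sec_cont' hA hg x0).sub continuous_const)).continuousAt
    refine hc.eventually_lt_const ?_
    simp only [sub_self, abs_zero]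
    exact half_pos hη
  have hev := hev1.prod_nhds hev2
  filter_upwards [hev] with z hz
  obtain ⟨x, k⟩ := z
  obtain ⟨h1, h2⟩ := hz
  simp only at h1 h2
  have h3 : min 1 |g (x, k) - g (x0, k)| < min 1 (η / 2) := (le_ciSup (hbdd x) k).trans_lt h1
  have h4 : |g (x, k) - g (x0, k)| < η / 2 := by
    by_contra hc
    rw [not_lt] at hc
    exact absurd h3 (not_lt.2 (min_le_min_left 1 hc))
  rw [Real.dist_eq]
  have h7 := abs_sub_le (g (x, k)) (g (x0, k)) (g (x0, k0))
  linarith

/-- products of weakly Grothendieck spaces with compact spaces are weakly Grothendieck -/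
theorem prod_thm (X : Type u) (K : Type v) [TopologicalSpace X] [TopologicalSpace K]
    [CompactSpace K] (hX : WeaklyGrothendieck X) : WeaklyGrothendieck (X × K) :=
  gspace_of_cont fun _ hA _ hg => main_cont hX hA hg

end Pool.Agent.H8.GG
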