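import Pool.Agent.H8.GG.SepRange
import Pool.Agent.H8.GG.ProdMain

set_option autoImplicit false

open Set Filter Topology

namespace Pool.Agent.H8.GG

universe u v

section

variable {X : Type u} {K : Type v} [TopologicalSpace X] [TopologicalSpace K] [CompactSpace K]

/-- `D` carries all the information on the family `ℋ` -/
def Dns (D : Set K) (ℋ : Set (X × K → ℝ)) : Prop :=
  ∀ k, ∃ k' ∈ closure D, ∀ h ∈ ℋ, ∀ x, h (x, k') = h (x, k)

theorem exists_dns (hX : Grothendieck X) {ℋ : Set (X × K → ℝ)} (hc : ℋ.Countable)
    (hne : ℋ.Nonempty) (hh : ∀ h ∈ ℋ, Continuous h) : ∃ D : Set K, D.Countable ∧ Dns D ℋ := by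
  obtain ⟨h, rfl⟩ := hc.exists_eq_range hne
  obtain ⟨D, hD, hDk⟩ := exists_dense hX h (fun n => hh _ ⟨n, rfl⟩)
  refine ⟨D, hD, fun k => ?_⟩
  obtain ⟨k', hk', heq⟩ := hDk k
  refine ⟨k', hk', ?_⟩
  rintro _ ⟨n, rfl⟩ x
  exact heq n x

omit [TopologicalSpace X] in
theorem dns_iUnion {D : ℕ → Set K} {ℋ : ℕ → Set (X × K → ℝ)}
    (_hDm : Monotone D) (hHm : Monotone ℋ) (h : ∀ n, Dns (D n) (ℋ n))
    (hc : ∀ n, ∀ h ∈ ℋ n, ∀ x, Continuous fun k => h (x, k)) : Dns (⋃ n, D n) (⋃ n, ℋ n) := by
  intro k
  choose k' hk' heq using fun n => h n k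
  obtain ⟨z, hz⟩ := exists_clusterPt_of_compactSpace (map k' atTop)
  have hz' : MapClusterPt z atTop k' := hz
  refine ⟨z, ?_, ?_⟩
  · refine isClosed_closure.mem_of_mapClusterPt hz' (Eventually.of_forall fun n => ?_)
    exact closure_mono (subset_iUnion D n) (hk' n)
  · intro h hh x
    obtain ⟨n, hn⟩ := mem_iUnion.1 hh
    have hclosed : IsClosed {y | h (x, y) = h (x, k)} := isClosed_eq (hc n h hn x) continuous_const
    refine hclosed.mem_of_mapClusterPt hz' ?_
    filter_upwards [eventually_ge_atTop n] with m hm
    exact heq m h (hHm hm hn) x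

end

/-- the product of a Grothendieck space and a compact space is Grothendieck -/
theorem prod_full (X : Type u) (K : Type v) [TopologicalSpace X] [TopologicalSpace K]
    [CompactSpace K] (hX : Grothendieck X) : Grothendieck (X × K) := by
  classical
  intro S A hA0
  have hA := seqCC_of hA0
  let e : S → (X × K → ℝ) := fun z => z.1.1
  have he : IsInducing e := IsInducing.subtypeVal.comp IsInducing.subtypeVal
  have hec : ∀ z : S, Continuous (e z) := fun z => z.1.2
  apply compact_of_subset_range he hA
  intro g hg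
  cases isEmpty_or_nonempty K with
  | inl hK =>
    have hne : (e '' A).Nonempty := closure_nonempty_iff.1 ⟨g, hg⟩
    obtain ⟨_, w, hw, rfl⟩ := hne
    exact ⟨w, funext fun x => hK.elim x.2⟩
  | inr hK =>
  -- `g` is continuous
  have hgc : Continuous g := by
    have hA1 : SeqCC (Subtype.val '' A : Set (Cp (X × K))) := by
      intro b hb
      choose a ha1 ha2 using hb
      obtain ⟨z, hz⟩ := hA a ha1
      refine ⟨z.1, ?_⟩
      have : b = Subtype.val ∘ a := funext fun n => (ha2 n).symm
      rw [this]
      exact hz.continuousAt_comp continuous_subtype_val.continuousAt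
    refine main_cont (weakly_of_grothendieck hX) hA1 ?_
    have : (Subtype.val '' (Subtype.val '' A : Set (Cp (X × K))) : Set (X × K → ℝ)) = e '' A := by
      rw [image_image]
    rw [this]
    exact hg
  have hsec : ∀ k, Continuous fun x => g (x, k) := fun k => hgc.comp (by fun_prop)
  -- the truncated distance to `g` along a sequence
  have hDD : ∀ q : ℕ → K, Continuous (DD q g : (X × K → ℝ) → (X → ℝ)) := by
    intro q
    refine continuous_pi fun x => ?_
    have haa : ∀ i, Continuous fun f : X × K → ℝ => aa q g i f x := fun i =>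
      continuous_const.min (continuous_abs.comp ((continuous_apply _).sub continuous_const))
    exact continuous_tsum (fun i => continuous_const.mul (haa i)) summable_half
      (fun i f => bound_term q g i f x)
  have hcont : ∀ (q : ℕ → K) (z : S), Continuous (DD q g (e z)) := by
    intro q z
    have hs : ∀ i, Continuous fun x : X => (x, q i) := fun i => by fun_prop
    have haa' : ∀ i, Continuous fun x => aa q g i (e z) x := fun i =>
      continuous_const.min (continuous_abs.comp (((hec z).comp (hs i)).sub (hsec (q i))))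
    exact continuous_tsum (fun i => continuous_const.mul (haa' i)) summable_half
      (fun i x => bound_term q g i (e z) x)
  let T : (ℕ → K) → S → Cp X := fun q z => ⟨DD q g (e z), hcont q z⟩
  have hT : ∀ q, Continuous (T q) := fun q => ((hDD q).comp he.continuous).subtype_mk _
  have hTA : ∀ (q : ℕ → K) (B : Set S), B ⊆ A → SeqCC (T q '' B) := by
    intro q B hB b hb
    choose a ha1 ha2 using hb
    obtain ⟨z, hz⟩ := hA a (fun n => hB (ha1 n))
    refine ⟨T q z, ?_⟩
    have : b = T q ∘ a := funext fun n => (ha2 n).symm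
    rw [this]
    exact hz.continuousAt_comp (hT q).continuousAt
  let h0 : Cp X := ⟨fun _ => 0, continuous_const⟩
  have hDg : ∀ q : ℕ → K, DD q g g = h0.1 := by
    intro q
    funext x
    unfold DD aa
    simp [h0]
  -- from closure to sequences
  have hseq : ∀ (q : ℕ → K) (B : Set S), B ⊆ A → h0 ∈ closure (T q '' B) →
      ∃ a : ℕ → S, (∀ n, a n ∈ B) ∧
        ∀ x i, Tendsto (fun n => e (a n) (x, q i)) atTop (𝓝 (g (x, q i))) := by
    intro q B hB hmem
    obtain ⟨b, hb1, hb2⟩ := fu hX (hTA q B hB) h0 hmem
    choose a ha1 ha2 using hb1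
    refine ⟨a, ha1, fun x i => ?_⟩
    have h3 : Tendsto (fun n => (b n).1 x) atTop (𝓝 0) :=
      ((continuous_apply x).comp continuous_subtype_val).continuousAt.tendsto.comp hb2
    have h4 : Tendsto (fun n => 2 ^ i * (b n).1 x) atTop (𝓝 0) := by
      have := h3.const_mul ((2 : ℝ) ^ i)
      rwa [mul_zero] at this
    rw [Metric.tendsto_nhds]
    intro η hη
    have h5 : ∀ᶠ n in atTop, 2 ^ i * (b n).1 x < min 1 η :=
      h4.eventually_lt_const (lt_min one_pos hη)
    filter_upwards [h5] with n hn
    have h6 := aa_le_DD q g i (e (a n)) x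
    have h7 : DD q g (e (a n)) x = (b n).1 x := by
      rw [← ha2 n]
    rw [h7] at h6
    have h8 : min 1 |e (a n) (x, q i) - g (x, q i)| < min 1 η := h6.trans_lt hn
    rw [Real.dist_eq]
    by_contra hc
    rw [not_lt] at hc
    exact absurd h8 (not_lt.2 (min_le_min_left 1 hc))
  -- sequences converging to `g` over countable sets
  have hstepA : ∀ D : Set K, D.Countable → ∃ a : ℕ → S, (∀ n, a n ∈ A) ∧
      ∀ x, ∀ k ∈ D, Tendsto (fun n => e (a n) (x, k)) atTop (𝓝 (g (x, k))) := by
    intro D hD
    obtain ⟨q, hq⟩ := (hD.insert (Classical.arbitrary K)).exists_eq_range (insert_nonempty _ _)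
    have hmem : h0 ∈ closure (T q '' A) := by
      rw [closure_subtype]
      have h1 : DD q g g ∈ closure (Subtype.val '' (T q '' A) : Set (X → ℝ)) := by
        refine map_mem_closure (hDD q) hg ?_
        rintro _ ⟨z, hz, rfl⟩
        exact ⟨T q z, ⟨z, hz, rfl⟩, rfl⟩
      rw [hDg] at h1
      exact h1
    obtain ⟨a, ha1, ha2⟩ := hseq q A Subset.rfl hmem
    refine ⟨a, ha1, fun x k hk => ?_⟩
    have : k ∈ range q := hq ▸ mem_insert_of_mem _ hk
    obtain ⟨i, rfl⟩ := this
    exact ha2 x i
  -- countable dense sets for countable families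
  have hstepD : ∀ B : Set S, B.Countable → ∃ D : Set K, D.Countable ∧
      Dns D (insert g (e '' B)) := by
    intro B hB
    apply exists_dns hX ((hB.image e).insert g) (insert_nonempty _ _)
    rintro h (rfl | ⟨z, _, rfl⟩)
    · exact hgc
    · exact hec z
  have hSne : Nonempty S := by
    obtain ⟨_, w, _, _⟩ : (e '' A).Nonempty := closure_nonempty_iff.1 ⟨g, hg⟩
    exact ⟨w⟩
  choose! sA hsA1 hsA2 using hstepA
  choose! dD hdD1 hdD2 using hstepD
  -- closing off
  let nx : Set K × Set S → Set K × Set S := fun p =>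
    (p.1 ∪ dD (p.2 ∪ range (sA p.1)), p.2 ∪ range (sA p.1))
  let st : ℕ → Set K × Set S := fun n => Nat.rec (∅, ∅) (fun _ p => nx p) n
  have hst : ∀ n, st (n + 1) = nx (st n) := fun n => rfl
  have hcD : ∀ n, (st n).1.Countable ∧ (st n).2.Countable ∧ (st n).2 ⊆ A := by
    intro n
    induction n with
    | zero => exact ⟨countable_empty, countable_empty, empty_subset _⟩
    | succ n ih =>
      rw [hst]
      have h2 : ((st n).2 ∪ range (sA (st n).1)).Countable := ih.2.1.union (countable_range _)
      refine ⟨ih.1.union (hdD1 _ h2), h2, union_subset ih.2.2 ?_⟩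
      rintro _ ⟨m, rfl⟩
      exact hsA1 _ ih.1 m
  have hm1 : Monotone fun n => (st n).1 := monotone_nat_of_le_succ fun n => by
    rw [hst]
    exact subset_union_left
  have hm2 : Monotone fun n => (st n).2 := monotone_nat_of_le_succ fun n => by
    rw [hst]
    exact subset_union_left
  let D : Set K := ⋃ n, (st n).1
  let B : Set S := ⋃ n, (st n).2
  have hDc : D.Countable := countable_iUnion fun n => (hcD n).1
  have hBA : B ⊆ A := iUnion_subset fun n => (hcD n).2.2
  have hdns : Dns D (insert g (e '' B)) := by
    have h1 : Dns (⋃ n, (st (n + 1)).1) (⋃ n, insert g (e '' (st (n + 1)).2)) := by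
      apply dns_iUnion
      · intro n m hnm
        exact hm1 (Nat.succ_le_succ hnm)
      · intro n m hnm
        exact insert_subset_insert (image_mono (hm2 (Nat.succ_le_succ hnm)))
      · intro n
        have h2 : ((st n).2 ∪ range (sA (st n).1)).Countable :=
          (hcD n).2.1.union (countable_range _)
        have h3 := hdD2 _ h2
        intro k
        obtain ⟨k', hk', heq⟩ := h3 k
        refine ⟨k', ?_, heq⟩
        rw [hst]
        exact closure_mono subset_union_right hk'
      · rintro n h (rfl | ⟨z, _, rfl⟩) x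
        · exact hgc.comp (by fun_prop)
        · exact (hec z).comp (by fun_prop)
    intro k
    obtain ⟨k', hk', heq⟩ := h1 k
    refine ⟨k', closure_mono (iUnion_subset fun n => subset_iUnion (fun n => (st n).1) (n + 1)) hk', ?_⟩
    rintro h (rfl | ⟨z, hz, rfl⟩) x
    · exact heq _ (mem_iUnion.2 ⟨0, mem_insert _ _⟩) x
    · obtain ⟨n, hn⟩ := mem_iUnion.1 hz
      exact heq _ (mem_iUnion.2 ⟨n, mem_insert_of_mem _ ⟨z, hm2 (Nat.le_succ n) hn, rfl⟩⟩) x
  -- a sequence in `B` converging to `g` over `D`
  obtain ⟨q, hq⟩ := (hDc.insert (Classical.arbitrary K)).exists_eq_range (insert_nonempty _ _)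
  have hseqB : ∃ a : ℕ → S, (∀ n, a n ∈ B) ∧
      ∀ x, ∀ k ∈ D, Tendsto (fun n => e (a n) (x, k)) atTop (𝓝 (g (x, k))) := by
    by_cases hDne : D.Nonempty
    · obtain ⟨q, hq⟩ := hDc.exists_eq_range hDne
      have hmem : h0 ∈ closure (T q '' B) := by
        rw [closure_subtype, mem_closure_iff]
        intro O hO hmem
        obtain ⟨I, u, hu, hIu⟩ := isOpen_pi_iff.1 hO _ hmem
        -- a radius
        have hδ : ∃ δ > 0, ∀ x ∈ I, ∀ t : ℝ, |t| < δ → t ∈ u x := by
          clear hIu
          induction I using Finset.induction_on with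
          | empty => exact ⟨1, one_pos, by simp⟩
          | insert i F hi ih =>
            obtain ⟨δ, hδ, hd⟩ := ih fun a ha => hu a (Finset.mem_insert_of_mem ha)
            obtain ⟨ho, h00⟩ := hu i (Finset.mem_insert_self _ _)
            obtain ⟨ε, hε, hb⟩ := Metric.isOpen_iff.1 ho 0 h00
            refine ⟨min δ ε, lt_min hδ hε, ?_⟩
            intro a ha t ht
            rcases Finset.mem_insert.1 ha with rfl | ha
            · apply hb
              rw [Metric.mem_ball, Real.dist_eq, sub_zero]
              exact lt_of_lt_of_le ht (min_le_right _ _)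
            · exact hd a ha t (lt_of_lt_of_le ht (min_le_left _ _))
        obtain ⟨δ, hδ, hδu⟩ := hδ
        -- finitely many points of the sequence matter
        obtain ⟨N, hN⟩ := exists_pow_lt_of_lt_one (half_pos hδ) (show (1 / 2 : ℝ) < 1 by norm_num)
        have hlevel : ∃ n, ∀ i < N + 2, q i ∈ (st n).1 := by
          have hi : ∀ i, ∃ n, q i ∈ (st n).1 := fun i =>
            mem_iUnion.1 (show q i ∈ D from hq ▸ mem_range_self i)
          choose m hm using hi
          refine ⟨(Finset.range (N + 2)).sup m, fun i hi => ?_⟩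
          exact hm1 (Finset.le_sup (f := m) (Finset.mem_range.2 hi)) (hm i)
        obtain ⟨n, hn⟩ := hlevel
        have hev : ∀ᶠ j in atTop, ∀ x ∈ I, ∀ i ∈ Finset.range (N + 2),
            |e (sA (st n).1 j) (x, q i) - g (x, q i)| < δ / 8 := by
          rw [Filter.eventually_all_finset]
          intro x _
          rw [Filter.eventually_all_finset]
          intro i hi
          have := hsA2 _ (hcD n).1 x (q i) (hn i (Finset.mem_range.1 hi))
          rw [Metric.tendsto_nhds] at this
          exact this (δ / 8) (by positivity)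
        obtain ⟨j, hj⟩ := hev.exists
        refine ⟨DD q g (e (sA (st n).1 j)), hIu ?_, ⟨T q (sA (st n).1 j),
          ⟨sA (st n).1 j, mem_iUnion.2 ⟨n + 1, ?_⟩, rfl⟩, rfl⟩⟩
        · intro x hx
          apply hδu x hx
          rw [abs_of_nonneg (DD_nonneg _ _ _ _)]
          unfold DD
          have hsum := summable_DD q g (e (sA (st n).1 j)) x
          rw [← hsum.sum_add_tsum_nat_add (N + 2)]
          have h1 : ∑ i ∈ Finset.range (N + 2), (1 / 2 : ℝ) ^ i * aa q g i (e (sA (st n).1 j)) x ≤
              δ / 4 := by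
            have h2 : ∀ i ∈ Finset.range (N + 2), (1 / 2 : ℝ) ^ i * aa q g i (e (sA (st n).1 j)) x ≤
                (1 / 2 : ℝ) ^ i * (δ / 8) := by
              intro i hi
              apply mul_le_mul_of_nonneg_left _ (by positivity)
              exact (min_le_right _ _).trans (hj x hx i hi).le
            refine (Finset.sum_le_sum h2).trans ?_
            rw [← Finset.sum_mul]
            have h3 : ∑ i ∈ Finset.range (N + 2), (1 / 2 : ℝ) ^ i ≤ 2 := by
              have := Summable.sum_le_tsum (Finset.range (N + 2)) (fun i _ => by positivity)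
                summable_half
              rwa [tsum_geometric_two] at this
            nlinarith
          have h4 : ∑' i, (1 / 2 : ℝ) ^ (i + (N + 2)) * aa q g (i + (N + 2)) (e (sA (st n).1 j)) x ≤
              δ / 4 := by
            have h5 : ∀ i, (1 / 2 : ℝ) ^ (i + (N + 2)) *
                aa q g (i + (N + 2)) (e (sA (st n).1 j)) x ≤ (1 / 2 : ℝ) ^ i * (1 / 2) ^ (N + 2) := by
              intro i
              rw [← pow_add]
              exact mul_le_of_le_one_right (by positivity) (aa_le_one _ _ _ _ _)
            have h6 : Summable fun i : ℕ => (1 / 2 : ℝ) ^ i * (1 / 2) ^ (N + 2) :=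
              summable_half.mul_right _
            refine (Summable.tsum_le_tsum h5 ?_ h6).trans ?_
            · exact (summable_nat_add_iff (N + 2)).2 hsum
            · rw [tsum_mul_right, tsum_geometric_two, pow_add]
              norm_num
              linarith
          linarith
        · rw [hst]
          exact Or.inr ⟨j, rfl⟩
      obtain ⟨a, ha1, ha2⟩ := hseq q B hBA hmem
      refine ⟨a, ha1, fun x k hk => ?_⟩
      have : k ∈ range q := hq ▸ hk
      obtain ⟨i, rfl⟩ := this
      exact ha2 x i
    · -- `D` is empty: impossible since `K` is nonempty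
      exfalso
      rw [not_nonempty_iff_eq_empty] at hDne
      obtain ⟨k', hk', _⟩ := hdns (Classical.arbitrary K)
      rw [hDne, closure_empty] at hk'
      exact hk'
  obtain ⟨a, ha1, ha2⟩ := hseqB
  obtain ⟨z, hz⟩ := hA a (fun n => hBA (ha1 n))
  refine ⟨z, funext fun p => ?_⟩
  obtain ⟨x, k⟩ := p
  -- `z` and `g` agree over `D`, hence over the closure of `D`
  have hzD : ∀ k ∈ D, e z (x, k) = g (x, k) := by
    intro k hk
    have hmc : MapClusterPt (e z (x, k)) atTop (fun n => e (a n) (x, k)) :=
      hz.continuousAt_comp (f := fun w : S => e w (x, k))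
        ((continuous_apply _).comp he.continuous).continuousAt
    exact tendsto_nhds_unique_of_mapClusterPt (ha2 x k hk) hmc
  have hzD' : ∀ k ∈ closure D, e z (x, k) = g (x, k) := by
    have hclosed : IsClosed {k | e z (x, k) = g (x, k)} :=
      isClosed_eq ((hec z).comp (by fun_prop)) (hgc.comp (by fun_prop))
    exact closure_minimal hzD hclosed
  obtain ⟨k', hk', heq⟩ := hdns k
  have h1 : e z (x, k') = e z (x, k) := by
    have hclosed : IsClosed {w : S | e w (x, k') = e w (x, k)} :=
      isClosed_eq ((continuous_apply _).comp he.continuous) ((continuous_apply _).comp he.continuous)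
    refine hclosed.mem_of_mapClusterPt hz (Eventually.of_forall fun n => ?_)
    exact heq _ (mem_insert_of_mem _ ⟨a n, ha1 n, rfl⟩) x
  have h2 : g (x, k') = g (x, k) := heq _ (mem_insert _ _) x
  rw [← h1, hzD' k' hk', h2]

end Pool.Agent.H8.GG
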